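import Pool.Agent.H64.EK.Targets
import Pool.Agent.H2.NL.Basic

/-!
# Row ETR of the board ekm_modules: the supertrace is the iterated mixed contraction
-/

set_option autoImplicit false
set_option linter.unusedSectionVars false

open Matrix Pool.Agent.H64.CC Pool.Agent.H2.NL Pool.Agent.H2.KM Pool.Agent.H64.EV
open Pool.Agent.H64.EK

namespace Pool.Agent.H4.EK

variable {K : Type} [Field K] {I : Type} [Fintype I] [DecidableEq I]

/-! ### Sums over words -/

private def consE (I : Type) (l : ℕ) : I × List.Vector I l ≃ List.Vector I (l + 1) where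
  toFun p := List.Vector.cons p.1 p.2
  invFun v := (v.head, v.tail)
  left_inv p := by simp
  right_inv v := by simp

private theorem sum_vec_succ (l : ℕ) (f : List I → K) :
    ∑ v : List.Vector I (l + 1), f v.1 = ∑ a : I, ∑ v : List.Vector I l, f (a :: v.1) := by
  rw [← Fintype.sum_prod_type' (fun (a : I) (v : List.Vector I l) => f (a :: v.1))]
  refine (Fintype.sum_equiv (consE I l) _ _ fun p => ?_).symm
  rfl

private theorem sum_vec_zero (f : List I → K) :
    ∑ v : List.Vector I 0, f v.1 = f [] := by
  rw [Fintype.sum_eq_single (List.Vector.nil : List.Vector I 0)]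
  · rfl
  · intro v hv
    exact absurd (List.Vector.eq_nil v) hv

private def revE (I : Type) (l : ℕ) : List.Vector I l ≃ List.Vector I l where
  toFun v := ⟨v.1.reverse, by rw [List.length_reverse]; exact v.2⟩
  invFun v := ⟨v.1.reverse, by rw [List.length_reverse]; exact v.2⟩
  left_inv v := by apply Subtype.ext; simp
  right_inv v := by apply Subtype.ext; simp

private theorem sum_vec_rev (l : ℕ) (f : List I → K) :
    ∑ v : List.Vector I l, f v.1.reverse = ∑ v : List.Vector I l, f v.1 :=
  Fintype.sum_equiv (revE I l) _ _ fun _ => rfl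

/-! ### Symmetry in the lower places -/

/-- symmetric in the lower places -/
private def LoS (o : I → Bool) (x : List I → List I → K) : Prop :=
  ∀ (j : ℕ) (u v : List I), sw o j (fun v => x u v) v = x u v

private theorem LoS_cons {o : I → Bool} {x : List I → List I → K} (h : LoS o x) (b : I) :
    LoS o fun u w => x u (b :: w) := fun j u v => h (j + 1) u (b :: v)

private theorem move {o : I → Bool} (a : I) (u : List I) : ∀ (v : List I)
    (x : List I → List I → K), LoS o x → x u (a :: v) = sgp K o a v * x u (v ++ [a])
  | [], x, _ => by rw [sgp_nil, one_mul, List.nil_append]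
  | b :: v, x, h => by
    have h1 : ks K (o a) (o b) * x u (b :: a :: v) = x u (a :: b :: v) := h 0 u (a :: b :: v)
    have h2 := move a u v (fun u w => x u (b :: w)) (LoS_cons h b)
    rw [← h1, h2, sgp_cons, List.cons_append]
    ring

variable (F : OForm K I)

private theorem LoS_oC {x : List I → List I → K} (h : LoS (fo F.o) x) :
    LoS (fo F.o) (oC F x) := by
  intro j u v
  rw [sw_eq]
  unfold oC
  rw [Finset.mul_sum]
  refine Finset.sum_congr rfl fun e _ => ?_
  have h1 := h (j + 1) (e :: u) (F.st e :: v)
  have h2 : sw (fo F.o) (j + 1) (fun v => x (e :: u) v) (F.st e :: v) =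
      sw (fo F.o) j (fun v => x (e :: u) (F.st e :: v)) v := rfl
  rw [h2, sw_eq] at h1
  rw [← h1]
  ring

private theorem sgp_st (e : I) (u : List I) :
    sgp K (fo F.o) (F.st e) (u.map F.st).reverse = sgp K (fo F.o) (F.st e) u := by
  rw [sgp_perm (fo F.o) (F.st e) (List.reverse_perm _)]
  unfold sgp
  rw [List.map_map]
  congr 1
  refine List.map_congr_left fun c _ => ?_
  simp [fo, F.o_st]

/-- the iterated mixed contraction -/
private theorem iter_oC (n : ℕ) : ∀ x : List I → List I → K, LoS (fo F.o) x →
    (oC F)^[n] x [] [] = ∑ u : List.Vector I n,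
      (u.1.map fun e => F.c (F.st e)).prod * x u.1 (u.1.map F.st).reverse := by
  induction n with
  | zero =>
    intro x _
    rw [sum_vec_zero (fun u => (u.map fun e => F.c (F.st e)).prod * x u (u.map F.st).reverse)]
    simp
  | succ n ih =>
    intro x h
    rw [Function.iterate_succ_apply, ih _ (LoS_oC F h),
      sum_vec_succ n (fun u => (u.map fun e => F.c (F.st e)).prod * x u (u.map F.st).reverse),
      Finset.sum_comm]
    refine Finset.sum_congr rfl fun u _ => ?_
    unfold oC
    rw [Finset.mul_sum]
    refine Finset.sum_congr rfl fun e _ => ?_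
    rw [move (F.st e) (e :: u.1) (u.1.map F.st).reverse x h, sgp_st]
    have h1 := sgp_sq (K := K) (fo F.o) (F.st e) u.1
    rw [List.map_cons, List.map_cons, List.prod_cons, List.reverse_cons]
    calc (u.1.map fun e => F.c (F.st e)).prod * (F.c (F.st e) * sgp K (fo F.o) (F.st e) u.1 *
          (sgp K (fo F.o) (F.st e) u.1 * x (e :: u.1) ((u.1.map F.st).reverse ++ [F.st e])))
        = (sgp K (fo F.o) (F.st e) u.1 * sgp K (fo F.o) (F.st e) u.1) *
          ((F.c (F.st e) * (u.1.map fun e => F.c (F.st e)).prod) *
          x (e :: u.1) ((u.1.map F.st).reverse ++ [F.st e])) := by ring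
      _ = _ := by rw [h1, one_mul]

/-- the product of the entries of the form -/
private theorem zip_eta : ∀ (v u : List I), v.length = u.length →
    (List.zipWith (fun a b => F.η a b) v u).prod =
      if v = u.map F.st then (u.map fun e => F.c (F.st e)).prod else 0
  | [], [], _ => by simp
  | a :: v, [], h => by simp at h
  | [], b :: u, h => by simp at h
  | a :: v, b :: u, h => by
    have h1 : v.length = u.length := by simpa using h
    rw [List.zipWith_cons_cons, List.prod_cons, zip_eta v u h1, List.map_cons, List.map_cons,
      List.prod_cons]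
    have h2 : F.η a b = if b = F.st a then F.c a else 0 := rfl
    rw [h2]
    by_cases h3 : a = F.st b
    · have h4 : b = F.st a := by rw [h3, F.st_st]
      rw [if_pos h4]
      by_cases h5 : v = u.map F.st
      · rw [if_pos h5, if_pos (by rw [h3, h5]), h3]
      · rw [if_neg h5, if_neg (fun h6 => h5 (List.cons.inj h6).2), mul_zero]
    · have h4 : ¬ b = F.st a := fun h4 => h3 (by rw [h4, F.st_st])
      rw [if_neg h4, zero_mul, if_neg (fun h6 => h3 (List.cons.inj h6).1)]

/-! ### The twist -/

private theorem sg_pow (p : Bool) (k : ℕ) : sg K p ^ (2 * k + 1) = sg K p := by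
  rw [pow_succ, pow_mul, sq, sg_mul_self, one_pow, one_mul]

private theorem twl_append (o : I → Bool) : ∀ (u v : List I) (i : ℕ),
    twl K o i (u ++ v) = twl K o i u * twl K o (i + u.length) v
  | [], v, i => by simp [twl]
  | a :: u, v, i => by
    rw [List.cons_append]
    show sg K (o a) ^ i * twl K o (i + 1) (u ++ v) = sg K (o a) ^ i * twl K o (i + 1) u *
      twl K o (i + (u.length + 1)) v
    rw [twl_append o u v (i + 1), add_right_comm i 1, add_assoc i u.length]
    ring

private theorem twl_rev : ∀ (u : List I) (i : ℕ),
    twl K F.o i u * twl K F.o (i + u.length) (u.map F.st).reverse = sgw K F.o u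
  | [], i => by simp [twl, sgw]
  | a :: u, i => by
    rw [List.map_cons, List.reverse_cons, twl_append]
    have h1 := twl_rev u (i + 1)
    have e1 : i + (a :: u).length = i + 1 + u.length := by
      rw [List.length_cons]
      omega
    have e2 : ((u.map F.st).reverse).length = u.length := by
      rw [List.length_reverse, List.length_map]
    rw [e1, e2]
    have e3 : twl K F.o (i + 1 + u.length + u.length) [F.st a] =
        sg K (F.o a) ^ (i + 1 + u.length + u.length) := by
      show sg K (F.o (F.st a)) ^ _ * 1 = _
      rw [F.o_st, mul_one]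
    have e4 : twl K F.o i (a :: u) = sg K (F.o a) ^ i * twl K F.o (i + 1) u := rfl
    have e5 : sgw K F.o (a :: u) = sg K (F.o a) * sgw K F.o u := by
      unfold sgw
      rw [List.map_cons, List.prod_cons]
    have e6 : sg K (F.o a) ^ i * sg K (F.o a) ^ (i + 1 + u.length + u.length) = sg K (F.o a) := by
      rw [← pow_add, show i + (i + 1 + u.length + u.length) = 2 * (i + u.length) + 1 by ring,
        sg_pow]
    rw [e3, e4, e5, ← h1]
    calc _ = (sg K (F.o a) ^ i * sg K (F.o a) ^ (i + 1 + u.length + u.length)) *
          (twl K F.o (i + 1) u * twl K F.o (i + 1 + u.length) (u.map F.st).reverse) := by ring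
      _ = _ := by rw [e6]

theorem pf_ETR : T_ETR := by
  intro K _ I _ _ F n t x hx ht
  rw [iter_oC F n x hx.lo]
  refine Finset.sum_congr rfl fun u _ => ?_
  have hlen : (u.1.map F.st).length = n := by rw [List.length_map]; exact u.2
  have h1 : op F.η n t u u =
      t (u.1 ++ (u.1.map F.st).reverse) * (u.1.map fun e => F.c (F.st e)).prod := by
    show opw F.η n t u.1 u.1 = _
    unfold opw
    rw [← sum_vec_rev n (fun v => t (u.1 ++ v) *
      (List.zipWith (fun a b => F.η a b) v.reverse u.1).prod)]
    let w : List.Vector I n := ⟨u.1.map F.st, hlen⟩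
    have hw : w.1 = u.1.map F.st := rfl
    rw [Fintype.sum_eq_single w]
    · rw [hw, List.reverse_reverse, zip_eta F _ _ (List.length_map _), if_pos rfl]
    · intro v hv
      rw [List.reverse_reverse, zip_eta F _ _ (v.2.trans u.2.symm), if_neg, mul_zero]
      intro h
      exact hv (Subtype.ext h)
  have h2 := ht _ _ u.2 (show ((u.1.map F.st).reverse).length = n by
    rw [List.length_reverse]; exact hlen)
  have h3 := twl_rev F u.1 0
  rw [twl_append, h3] at h2
  rw [h1, ← h2]
  ring

end Pool.Agent.H4.EK
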